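import Pool.Agent.N837.LP.GenW

set_option autoImplicit false

/-!
# A positive proportion of the even numbers have only large indices, in all types at the same time

For every `A ≥ 1` and `0 < η ≤ 1`, for every large `X` a positive proportion of the even `N` in
`(X, X + X ^ η]` is such that for ALL `a, b ≥ 0` every representation `N = ᵃp_x + ᵇp_y` has
`x > A (1 + log X / (a + 1) ^ 2)` and `y > A (1 + log X / (b + 1) ^ 2)`.
-/

namespace Pool.Agent.Results.MP_e3f158_nt.LargeIndicesAllTypes

/-- the `x`-th `a`-prime -/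
noncomputable def ipr (a x : ℕ) : ℕ := Nat.iterate (fun k : ℕ => Nat.nth Nat.Prime (k - 1)) (a + 1) x

theorem ipr_prime (a x : ℕ) : (ipr a x).Prime := by
  unfold ipr
  rw [Function.iterate_succ_apply']
  exact Nat.prime_nth_prime _

theorem nth_ge (k : ℕ) : 3 * (k + 1) ≤ 2 * Nat.nth Nat.Prime k := by
  have h0 : Nat.nth Nat.Prime 0 = 2 := Nat.nth_prime_zero_eq_two
  have h1 : Nat.nth Nat.Prime 1 = 3 := Nat.nth_prime_one_eq_three
  have hs : ∀ m : ℕ, 2 * m + 1 ≤ Nat.nth Nat.Prime m ∧ (1 ≤ m → Nat.nth Nat.Prime m % 2 = 1) := by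
    intro m
    induction m with
    | zero =>
      rw [h0]
      exact ⟨by norm_num, fun h => absurd h (by norm_num)⟩
    | succ m ih =>
      have hlt : Nat.nth Nat.Prime m < Nat.nth Nat.Prime (m + 1) :=
        Nat.nth_strictMono Nat.infinite_setOfPred_prime (Nat.lt_succ_self m)
      have hp : (Nat.nth Nat.Prime (m + 1)).Prime := Nat.prime_nth_prime _
      have hodd : Nat.nth Nat.Prime (m + 1) % 2 = 1 := by
        rcases hp.eq_two_or_odd with h | h
        · exfalso
          have : Nat.nth Nat.Prime 0 ≤ Nat.nth Nat.Prime m :=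
            (Nat.nth_strictMono Nat.infinite_setOfPred_prime).monotone (Nat.zero_le m)
          omega
        · exact h
      refine ⟨?_, fun _ => hodd⟩
      rcases Nat.eq_zero_or_pos m with h | h
      · subst h
        rw [h1]
      · have := ih.2 h
        omega
  have := (hs k).1
  rcases Nat.eq_zero_or_pos k with h | h
  · subst h
    rw [h0]
    norm_num
  · omega

theorem ipr_ge (a x : ℕ) (hx : 0 < x) : (3 / 2 : ℝ) ^ (a + 1) ≤ (ipr a x : ℝ) := by
  have key : ∀ m : ℕ, (3 / 2 : ℝ) ^ m ≤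
      ((Nat.iterate (fun k : ℕ => Nat.nth Nat.Prime (k - 1)) m x : ℕ) : ℝ) := by
    intro m
    induction m with
    | zero =>
      simp only [pow_zero, Function.iterate_zero, id_eq]
      exact_mod_cast hx
    | succ m ih =>
      rw [Function.iterate_succ_apply', pow_succ]
      set z := Nat.iterate (fun k : ℕ => Nat.nth Nat.Prime (k - 1)) m x with hz
      have hz1 : 1 ≤ z := by
        have h1 : (0:ℝ) < (z:ℝ) := lt_of_lt_of_le (by positivity) ih
        have h2 : 0 < z := by exact_mod_cast h1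
        exact h2
      have h2 := nth_ge (z - 1)
      have h3 : z - 1 + 1 = z := by omega
      rw [h3] at h2
      have h4 : (3:ℝ) * z ≤ 2 * (Nat.nth Nat.Prime (z - 1) : ℕ) := by exact_mod_cast h2
      nlinarith
  exact key (a + 1)

theorem sum_sq (n : ℕ) : ∑ a ∈ Finset.range n, (1 / ((a : ℝ) + 1) ^ 2) ≤ 2 := by
  have key : ∀ n : ℕ, 1 ≤ n →
      ∑ a ∈ Finset.range n, (1 / ((a : ℝ) + 1) ^ 2) ≤ (2 : ℝ) - (1 : ℝ) / (n : ℝ) := by
    intro n hn
    induction n, hn using Nat.le_induction with
    | base => norm_num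
    | succ n hn ih =>
      rw [Finset.sum_range_succ]
      have hn0 : (0:ℝ) < n := by exact_mod_cast hn
      have h1 : 1 / ((n:ℝ) + 1) ^ 2 ≤ 1 / (n:ℝ) - 1 / ((n:ℝ) + 1) := by
        rw [div_sub_div _ _ hn0.ne' (by positivity), div_le_div_iff₀ (by positivity) (by positivity)]
        nlinarith
      push_cast
      linarith
  rcases Nat.eq_zero_or_pos n with h | h
  · subst h
    norm_num
  · have h1 := key n h
    have : (0:ℝ) ≤ (1 : ℝ) / (n : ℝ) := by positivity
    linarith

theorem result : ∃ C : ℝ, 0 < C ∧ ∀ A η : ℝ, 1 ≤ A → 0 < η → η ≤ 1 →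
    ∃ X₀ : ℝ, ∀ X : ℝ, X₀ ≤ X →
    X ^ η * Real.exp (-Real.exp (C * A / η)) ≤
      (({N : ℕ | Even N ∧ X < N ∧ (N : ℝ) ≤ X + X ^ η ∧
        ∀ a b x y : ℕ, 0 < x → 0 < y → ipr a x + ipr b y = N →
          A * (1 + Real.log X / ((a : ℝ) + 1) ^ 2) < x ∧
          A * (1 + Real.log X / ((b : ℝ) + 1) ^ 2) < y}).ncard : ℝ) := by
  classical
  obtain ⟨C, hC, h⟩ := Pool.Agent.N837.LP.genW 1 one_pos
  refine ⟨12 * C, by positivity, fun A η hA hη hη1 => ?_⟩
  obtain ⟨X₀, hX₀⟩ := h (12 * A) η 2 (by nlinarith) hη hη1 (by norm_num)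
  refine ⟨max X₀ 4, fun X hX => ?_⟩
  have hX4 : 4 ≤ X := (le_max_right _ _).trans hX
  have hX0 : 0 < X := by linarith
  have hXη : X ^ η ≤ X := by
    calc X ^ η ≤ X ^ (1:ℝ) := Real.rpow_le_rpow_of_exponent_le (by linarith) hη1
      _ = X := Real.rpow_one X
  have hL : 1 ≤ Real.log X := by
    rw [Real.le_log_iff_exp_le hX0]
    have := Real.exp_one_lt_d9
    linarith
  set R : ℕ := ⌊8 * Real.log X⌋₊ with hR
  have hRle : (R : ℝ) ≤ 8 * Real.log X := Nat.floor_le (by positivity)
  set m : ℕ → ℕ := fun a => ⌊A * (1 + Real.log X / ((a : ℝ) + 1) ^ 2)⌋₊ with hm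
  set S : Finset ℕ := ((Finset.range R).biUnion
    (fun a => (Finset.Icc 1 (m a)).image (fun x => ipr a x))).filter (fun s => (s : ℝ) ≤ 2 * X) with hS
  have hScard : (S.card : ℝ) ≤ 12 * A * Real.log X := by
    have e1 : S.card ≤ ∑ a ∈ Finset.range R, m a := by
      refine (Finset.card_filter_le _ _).trans (Finset.card_biUnion_le.trans ?_)
      apply Finset.sum_le_sum
      intro a _
      refine Finset.card_image_le.trans ?_
      rw [Nat.card_Icc]
      omega
    have e2 : (S.card : ℝ) ≤ ∑ a ∈ Finset.range R, (m a : ℝ) := by exact_mod_cast e1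
    have e3 : ∀ a ∈ Finset.range R, (m a : ℝ) ≤ A + A * Real.log X * (1 / ((a : ℝ) + 1) ^ 2) := by
      intro a _
      have : (m a : ℝ) ≤ A * (1 + Real.log X / ((a : ℝ) + 1) ^ 2) := Nat.floor_le (by positivity)
      refine this.trans (le_of_eq ?_)
      ring
    calc (S.card : ℝ) ≤ _ := e2
      _ ≤ ∑ a ∈ Finset.range R, (A + A * Real.log X * (1 / ((a : ℝ) + 1) ^ 2)) :=
          Finset.sum_le_sum e3
      _ = R * A + A * Real.log X * ∑ a ∈ Finset.range R, (1 / ((a : ℝ) + 1) ^ 2) := by
          rw [Finset.sum_add_distrib, Finset.sum_const, Finset.card_range, nsmul_eq_mul,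
            ← Finset.mul_sum]
      _ ≤ 8 * Real.log X * A + A * Real.log X * 2 := by
          apply add_le_add
          · exact mul_le_mul_of_nonneg_right hRle (by linarith)
          · exact mul_le_mul_of_nonneg_left (sum_sq R) (by positivity)
      _ ≤ _ := by nlinarith
  have h1 := hX₀ X ((le_max_left _ _).trans hX) (S.image (fun s : ℕ => (s : ℤ)))
    (le_trans (by exact_mod_cast Finset.card_image_le) hScard)
    (by
      intro b hb
      rw [Finset.mem_image] at hb
      obtain ⟨m, hm, rfl⟩ := hb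
      rw [hS, Finset.mem_filter] at hm
      have e1 : (m : ℝ) ≤ 2 * X := hm.2
      push_cast
      rw [abs_of_nonneg (by positivity)]
      have e2 : X ^ (2:ℝ) = X * X := by
        rw [show (2:ℝ) = ((2:ℕ):ℝ) by norm_num, Real.rpow_natCast]
        ring
      rw [e2]
      nlinarith)
    0
  have h2 : C * (12 * A) / η = 12 * C * A / η := by ring
  rw [h2] at h1
  refine h1.trans (Nat.cast_le.2 (Set.ncard_le_ncard ?_ ?_))
  · intro n hn
    obtain ⟨q1, q2, q3, q4⟩ := hn
    have hn2X : (n : ℝ) ≤ 2 * X := by linarith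
    have key : ∀ a b x y : ℕ, 0 < x → ipr a x + ipr b y = n →
        A * (1 + Real.log X / ((a : ℝ) + 1) ^ 2) < x := by
      intro a b x y hx hn
      by_contra hcon
      push Not at hcon
      have hxf : x ≤ m a := Nat.le_floor hcon
      have e0 : ((ipr a x : ℕ) : ℝ) ≤ n := by
        have : ipr a x ≤ n := by omega
        exact_mod_cast this
      have haR : a < R := by
        have f1 := ipr_ge a x hx
        have f2 : (3 / 2 : ℝ) ^ (a + 1) ≤ 2 * X := by linarith
        have f3 : Real.log ((3 / 2 : ℝ) ^ (a + 1)) ≤ Real.log (2 * X) :=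
          Real.log_le_log (by positivity) f2
        rw [Real.log_pow, Real.log_mul (by norm_num) hX0.ne'] at f3
        have f4 : (1 / 3 : ℝ) ≤ Real.log (3 / 2) := by
          have := Real.one_sub_inv_le_log_of_pos (show (0:ℝ) < 3 / 2 by norm_num)
          norm_num at this
          linarith
        have f5 : Real.log 2 ≤ Real.log X := Real.log_le_log (by norm_num) (by linarith)
        have f6 : ((a : ℝ) + 1) * (1 / 3) ≤ 2 * Real.log X := by
          have f7 : ((a : ℝ) + 1) * (1 / 3) ≤ ((a : ℝ) + 1) * Real.log (3 / 2) :=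
            mul_le_mul_of_nonneg_left f4 (by positivity)
          push_cast at f3
          linarith
        have f8 : ((a + 1 : ℕ) : ℝ) ≤ 8 * Real.log X := by
          push_cast
          linarith
        have := Nat.le_floor f8
        omega
      have hs : ipr a x ∈ S := by
        rw [hS, Finset.mem_filter, Finset.mem_biUnion]
        refine ⟨⟨a, Finset.mem_range.2 haR, ?_⟩, by linarith⟩
        rw [Finset.mem_image]
        exact ⟨x, Finset.mem_Icc.2 ⟨hx, hxf⟩, rfl⟩
      obtain ⟨q, p1, p2, p3, p4⟩ := q4 _ (Finset.mem_image_of_mem _ hs)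
      have e1 : (n : ℤ) - ((ipr a x : ℕ) : ℤ) = ((ipr b y : ℕ) : ℤ) := by
        rw [← hn]
        push_cast
        ring
      rw [e1] at p3 p4
      rw [abs_of_nonneg (by positivity)] at p4
      have e2 : q ∣ ipr b y := by exact_mod_cast p3
      have e3 : q < ipr b y := by exact_mod_cast p4
      rcases (Nat.dvd_prime (ipr_prime b y)).1 e2 with e4 | e4
      · exact p1.one_lt.ne' e4
      · omega
    refine ⟨?_, q1, q2, fun a b x y hx hy hn => ⟨key a b x y hx hn,
      key b a y x hy (by rw [add_comm]; exact hn)⟩⟩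
    have e1 : (n : ℤ) % 2 = 0 := by simpa using q3
    have e2 : n % 2 = 0 := by omega
    exact Nat.even_iff.2 e2
  · apply (Set.finite_Iic ⌊X + X ^ η⌋₊).subset
    intro a ha
    obtain ⟨_, _, h2, _⟩ := ha
    rw [Set.mem_Iic]
    exact Nat.le_floor h2

end Pool.Agent.Results.MP_e3f158_nt.LargeIndicesAllTypes
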