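import Mathlib
import Pool.Agent.N909.TF.Lim

set_option autoImplicit false

/-!
# Sums of iterated-index primes in all sequential random models, uniformly in the number of iterations

The question is whether every even integer `2 n ≥ 2 f₂(a, b)` is a sum of an `a`-prime and of a
different `b`-prime.  We prove it for the types `(a, 0)`, with finitely many exceptional pairs
(type, number) altogether, in EVERY sequential random model of the primes (the integers are decided one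
after the other, the conditional probability of choosing `n + 1` given the past is asymptotic to
`1 / log n`; no independence, no rate).  The number of the representations of `n` with the `a`-prime
below `n / 2` is asymptotic to the expected value, uniformly for `a ≤ (1 - ε) log n / log log n`.
-/

open MeasureTheory Filter
open scoped Topology

namespace Pool.Agent.Results.MP_e3f158_nt.SequentialModelsUniform

/-- the element number `k` of `S` in increasing order (the least one has number `1`) -/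
noncomputable def p (S : Set ℕ) (k : ℕ) : ℕ := Nat.nth (· ∈ S) (k - 1)

/-- the `x`-th `i`-prime of `S`, for `x ≥ 1`: the `(i + 1)`-fold iterate of `p S` at `x` -/
noncomputable def iPrime (S : Set ℕ) (i x : ℕ) : ℕ := (p S)^[i + 1] x

/-- `m` has a representation of type `(a, b)`, with the elements of `S` in the role of the primes -/
def HasRep (S : Set ℕ) (a b m : ℕ) : Prop :=
  ∃ x y : ℕ, 1 ≤ x ∧ 1 ≤ y ∧ iPrime S a x + iPrime S b y = m ∧ iPrime S a x ≠ iPrime S b y

/-- the number of the `a`-primes up to `y` -/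
noncomputable def cnt (S : Set ℕ) (a y : ℕ) : ℕ := {x : ℕ | 1 ≤ x ∧ iPrime S a x ≤ y}.ncard

/-- the number of the `a`-primes `m < n / 2` with `n - m` in `S` -/
noncomputable def reps (S : Set ℕ) (a n : ℕ) : ℕ :=
  {x : ℕ | 1 ≤ x ∧ 2 * iPrime S a x < n ∧ n - iPrime S a x ∈ S}.ncard

/-- the function `f₂` of the question -/
noncomputable def f₂ (a b : ℕ) : ℝ :=
  if a = b then
    (if a = 0 then (2 : ℝ) ^ (((a : ℝ) + 1) * (b + 1) * (a + b + 2))
      else (2 : ℝ) ^ (((a : ℝ) + 1) ^ 2 * (2 * a + 3) / a - 2 * a))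
  else (2 : ℝ) ^ (((a : ℝ) + 1) * (b + 1) * (a + b + 2) - (a + b - 2))

open Pool.Agent.N909.TF

/-- the number of the elements of `S` up to `y` -/
noncomputable def pi (S : Set ℕ) (y : ℕ) : ℕ := (S ∩ Set.Ioc 0 y).ncard

section det

variable {S : Set ℕ}

lemma p_eq (S : Set ℕ) (k : ℕ) : p S k = pk S k := rfl

lemma pi_le (S : Set ℕ) (y : ℕ) : pi S y ≤ y := by
  unfold pi
  calc (S ∩ Set.Ioc 0 y).ncard ≤ (Set.Ioc 0 y).ncard :=
        Set.ncard_le_ncard Set.inter_subset_right (Set.finite_Ioc 0 y)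
    _ = y := by rw [← Finset.coe_Ioc, Set.ncard_coe_finset, Nat.card_Ioc, Nat.sub_zero]

lemma pi_it_le (S : Set ℕ) (i y : ℕ) : (pi S)^[i] y ≤ y := by
  induction i generalizing y with
  | zero => simp
  | succ i ih => rw [Function.iterate_succ_apply]; exact (ih _).trans (pi_le S y)

lemma p_pos (hS : S.Infinite) (h0 : 0 ∉ S) (k : ℕ) : 1 ≤ p S k := by
  have h1 : p S k ∈ S := pk_mem hS k
  by_contra hcon
  have h2 : p S k = 0 := by omega
  rw [h2] at h1
  exact h0 h1

lemma p_it_pos (hS : S.Infinite) (h0 : 0 ∉ S) (i : ℕ) {x : ℕ} (hx : 1 ≤ x) : 1 ≤ (p S)^[i] x := by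
  cases i with
  | zero => simpa using hx
  | succ i => rw [Function.iterate_succ_apply']; exact p_pos hS h0 _

lemma galois (hS : S.Infinite) (h0 : 0 ∉ S) {x : ℕ} (hx : 1 ≤ x) (y : ℕ) : p S x ≤ y ↔ x ≤ pi S y := by
  classical
  constructor
  · intro h
    have h1 : Nat.count (· ∈ S) (p S x + 1) = x := by
      rw [p_eq, Nat.count_succ, count_pk hS, if_pos (pk_mem hS x)]
      omega
    rw [← h1, Nat.count_eq_card_filter_range, ← Set.ncard_coe_finset]
    unfold pi
    apply Set.ncard_le_ncard _ ((Set.finite_Ioc 0 y).subset Set.inter_subset_right)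
    intro t ht
    rw [Finset.mem_coe, Finset.mem_filter, Finset.mem_range] at ht
    refine ⟨ht.2, ?_, by omega⟩
    rcases Nat.eq_zero_or_pos t with h2 | h2
    · rw [h2] at ht
      exact absurd ht.2 h0
    · exact h2
  · intro h
    exact pk_le_of hS h hx

lemma galois_it (hS : S.Infinite) (h0 : 0 ∉ S) (i : ℕ) {x : ℕ} (hx : 1 ≤ x) (y : ℕ) :
    (p S)^[i] x ≤ y ↔ x ≤ (pi S)^[i] y := by
  induction i generalizing y with
  | zero => simp
  | succ i ih =>
    rw [Function.iterate_succ_apply', Function.iterate_succ_apply, galois hS h0 (p_it_pos hS h0 i hx), ih]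

lemma p_it_inj (hS : S.Infinite) (h0 : 0 ∉ S) (i : ℕ) {x x' : ℕ} (hx : 1 ≤ x) (hx' : 1 ≤ x')
    (h : (p S)^[i] x = (p S)^[i] x') : x = x' := by
  induction i generalizing x x' with
  | zero => simpa using h
  | succ i ih =>
    rw [Function.iterate_succ_apply, Function.iterate_succ_apply] at h
    exact pk_inj hS hx hx' (ih (p_pos hS h0 x) (p_pos hS h0 x') h)

lemma cnt_eq (hS : S.Infinite) (h0 : 0 ∉ S) (a y : ℕ) : cnt S a y = (pi S)^[a + 1] y := by
  have h1 : {x : ℕ | 1 ≤ x ∧ iPrime S a x ≤ y} = ((Finset.Icc 1 ((pi S)^[a + 1] y) : Finset ℕ) : Set ℕ) := by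
    ext x
    rw [Finset.mem_coe, Finset.mem_Icc]
    constructor
    · rintro ⟨h2, h3⟩
      exact ⟨h2, (galois_it hS h0 (a + 1) h2 y).1 h3⟩
    · rintro ⟨h2, h3⟩
      exact ⟨h2, (galois_it hS h0 (a + 1) h2 y).2 h3⟩
  unfold cnt
  rw [h1, Set.ncard_coe_finset, Nat.card_Icc]
  omega

/-- the elements of the iterated index set are the jumps of the iterate of the counting function -/
lemma jump (hS : S.Infinite) (h0 : 0 ∉ S) (i : ℕ) {m : ℕ} (hm : 1 ≤ m) :
    (∃ x, 1 ≤ x ∧ (p S)^[i] x = m) ↔ (pi S)^[i] (m - 1) < (pi S)^[i] m := by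
  constructor
  · rintro ⟨x, hx, h⟩
    have h1 := (galois_it hS h0 i hx m).1 h.le
    have h2 : ¬ x ≤ (pi S)^[i] (m - 1) := by
      intro h3
      have := (galois_it hS h0 i hx (m - 1)).2 h3
      omega
    omega
  · intro h
    refine ⟨(pi S)^[i] (m - 1) + 1, by omega, ?_⟩
    have h1 := (galois_it hS h0 i (show 1 ≤ (pi S)^[i] (m - 1) + 1 by omega) m).2 (by omega)
    have h2 : ¬ (p S)^[i] ((pi S)^[i] (m - 1) + 1) ≤ m - 1 := by
      intro h3
      have := (galois_it hS h0 i (show 1 ≤ (pi S)^[i] (m - 1) + 1 by omega) (m - 1)).1 h3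
      omega
    omega

/-- the jumps up to `X` -/
noncomputable def J (i : ℕ) (S : Set ℕ) (X : ℕ) : Finset ℕ :=
  (Finset.Icc 1 X).filter (fun m => (pi S)^[i] (m - 1) < (pi S)^[i] m)

lemma pi_trunc {s S : Set ℕ} {X : ℕ} (hs : ∀ t, 0 < t → t ≤ X → (t ∈ s ↔ t ∈ S)) {y : ℕ} (hy : y ≤ X) :
    pi s y = pi S y := by
  unfold pi
  congr 1
  ext t
  simp only [Set.mem_inter_iff, Set.mem_Ioc]
  constructor
  · rintro ⟨h1, h2, h3⟩
    exact ⟨(hs t h2 (h3.trans hy)).1 h1, h2, h3⟩
  · rintro ⟨h1, h2, h3⟩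
    exact ⟨(hs t h2 (h3.trans hy)).2 h1, h2, h3⟩

lemma pi_it_trunc {s S : Set ℕ} {X : ℕ} (hs : ∀ t, 0 < t → t ≤ X → (t ∈ s ↔ t ∈ S)) (i : ℕ) {y : ℕ} (hy : y ≤ X) :
    (pi s)^[i] y = (pi S)^[i] y := by
  induction i generalizing y with
  | zero => simp
  | succ i ih =>
    rw [Function.iterate_succ_apply, Function.iterate_succ_apply, pi_trunc hs hy]
    exact ih ((pi_le S y).trans hy)

lemma J_trunc {s S : Set ℕ} {X : ℕ} (hs : ∀ t, 0 < t → t ≤ X → (t ∈ s ↔ t ∈ S)) (i : ℕ) : J i s X = J i S X := by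
  unfold J
  apply Finset.filter_congr
  intro m hm
  rw [Finset.mem_Icc] at hm
  rw [pi_it_trunc hs i hm.2, pi_it_trunc hs i (show m - 1 ≤ X by omega)]

/-- the set of the `x` is in bijection with a set of jumps -/
lemma ncard_jump (hS : S.Infinite) (h0 : 0 ∉ S) (a X : ℕ) (P : ℕ → Prop) [DecidablePred P] :
    {x : ℕ | 1 ≤ x ∧ iPrime S a x ≤ X ∧ P (iPrime S a x)}.ncard = ((J (a + 1) S X).filter P).card := by
  rw [← Set.ncard_coe_finset]
  have h1 : (((J (a + 1) S X).filter P : Finset ℕ) : Set ℕ) =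
      iPrime S a '' {x : ℕ | 1 ≤ x ∧ iPrime S a x ≤ X ∧ P (iPrime S a x)} := by
    ext m
    rw [Finset.mem_coe, Finset.mem_filter]
    unfold J
    rw [Finset.mem_filter, Finset.mem_Icc]
    constructor
    · rintro ⟨⟨⟨h1, h2⟩, h3⟩, h4⟩
      obtain ⟨x, hx, hxm⟩ := (jump hS h0 (a + 1) h1).2 h3
      have hxm' : iPrime S a x = m := hxm
      refine ⟨x, ⟨hx, ?_, ?_⟩, hxm'⟩
      · rw [hxm']; exact h2
      · rw [hxm']; exact h4
    · rintro ⟨x, ⟨h1, h2, h3⟩, rfl⟩
      have h4 : 1 ≤ iPrime S a x := p_it_pos hS h0 (a + 1) h1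
      exact ⟨⟨⟨h4, h2⟩, (jump hS h0 (a + 1) h4).1 ⟨x, h1, rfl⟩⟩, h3⟩
  rw [h1, Set.InjOn.ncard_image]
  intro x hx x' hx' h
  exact p_it_inj hS h0 (a + 1) hx.1 hx'.1 h

lemma J_card (hS : S.Infinite) (h0 : 0 ∉ S) (a X : ℕ) : (J (a + 1) S X).card = cnt S a X := by
  have h1 := ncard_jump hS h0 a X (fun _ => True)
  rw [Finset.filter_true_of_mem (fun _ _ => trivial)] at h1
  rw [← h1]
  unfold cnt
  congr 1
  ext x
  simp

/-- the time -/
def X (N : ℕ) : ℕ := ((Nat.unpair N).1 - 1) / 2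

/-- the random family -/
noncomputable def Phi (N : ℕ) (s : Finset ℕ) : Finset (ℕ × Finset ℕ) :=
  (J ((Nat.unpair N).2 + 1) (s : Set ℕ) (X N)).image (fun m => (m, {(Nat.unpair N).1 - m}))

lemma mem_Phi {N : ℕ} {s : Finset ℕ} {j : ℕ × Finset ℕ} :
    j ∈ Phi N s ↔ j.1 ∈ J ((Nat.unpair N).2 + 1) (s : Set ℕ) (X N) ∧ j.2 = {(Nat.unpair N).1 - j.1} := by
  unfold Phi
  rw [Finset.mem_image]
  constructor
  · rintro ⟨m, hm, rfl⟩
    exact ⟨hm, rfl⟩
  · rintro ⟨h1, h2⟩
    exact ⟨j.1, h1, Prod.ext rfl h2.symm⟩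

lemma mem_J {i X m : ℕ} (h : m ∈ J i S X) : 1 ≤ m ∧ m ≤ X := by
  unfold J at h
  rw [Finset.mem_filter, Finset.mem_Icc] at h
  exact h.1

lemma Phi_t {N : ℕ} {s : Finset ℕ} {j : ℕ × Finset ℕ} (hj : j ∈ Phi N s) {t : ℕ} (ht : t ∈ j.2) :
    X N < t ∧ t ≤ (Nat.unpair N).1 ∧ (Nat.unpair N).1 < 2 * t ∧ j.1 + t = (Nat.unpair N).1 := by
  obtain ⟨h1, h2⟩ := mem_Phi.1 hj
  rw [h2, Finset.mem_singleton] at ht
  obtain ⟨h3, h4⟩ := mem_J h1
  unfold X at *
  omega

lemma Phi_mult (N : ℕ) (s : Finset ℕ) (t : ℕ) : ((Phi N s).filter (fun j => t ∈ j.2)).card ≤ 1 := by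
  refine Finset.card_le_one.2 fun a ha b hb => ?_
  rw [Finset.mem_filter] at ha hb
  have h1 := Phi_t ha.1 ha.2
  have h2 := Phi_t hb.1 hb.2
  have h3 : a.1 = b.1 := by omega
  refine Prod.ext h3 ?_
  rw [(mem_Phi.1 ha.1).2, (mem_Phi.1 hb.1).2, h3]

lemma cop_one (J : Finset (ℕ × Finset ℕ)) : cop J Prod.snd 1 = J := by
  unfold cop
  exact Finset.filter_true_of_mem fun j _ t _ => Nat.coprime_one_right t

lemma Phi_inj (n : ℕ) : Function.Injective (fun m : ℕ => ((m, {n - m}) : ℕ × Finset ℕ)) := by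
  intro a b h
  exact congrArg Prod.fst h

/-- size of the family -/
lemma Phi_card (hS : S.Infinite) (h0 : 0 ∉ S) (N : ℕ) (s : Finset ℕ)
    (hs : ∀ t, 0 < t → t ≤ X N → (t ∈ (s : Set ℕ) ↔ t ∈ S)) :
    (Phi N s).card = cnt S (Nat.unpair N).2 (X N) := by
  unfold Phi
  rw [Finset.card_image_of_injective _ (Phi_inj _), J_trunc hs, J_card hS h0]

/-- the lower bound for the number of the `a`-primes -/
lemma low (hP : PNT S) (ε : ℝ) (hε : 0 < ε) : ∀ᶠ n : ℕ in atTop, ∀ a : ℕ,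
    (a : ℝ) ≤ (1 - ε) * (Real.log n / Real.log (Real.log n)) →
      (n : ℝ) ^ (ε / 2) ≤ ((pi S)^[a + 1] ((n - 1) / 2) : ℕ) := by
  obtain ⟨y0, hy0⟩ := eventually_atTop.1 (hP (1 / 2) (by norm_num))
  have hlog : Tendsto (fun n : ℕ => Real.log n) atTop atTop := Real.tendsto_log_atTop.comp tendsto_natCast_atTop_atTop
  have hll : Tendsto (fun n : ℕ => Real.log (Real.log n)) atTop atTop := Real.tendsto_log_atTop.comp hlog
  have hsm : ∀ᶠ n : ℕ in atTop, Real.log (Real.log n) ≤ ε / 6 * Real.log n := by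
    have h1 := (Real.isLittleO_log_id_atTop.comp_tendsto hlog).def (show 0 < ε / 6 by positivity)
    filter_upwards [h1, hlog.eventually_ge_atTop 0] with n g1 g2
    simp only [Function.comp_apply, id, Real.norm_eq_abs] at g1
    rw [abs_of_nonneg g2] at g1
    exact (le_abs_self _).trans g1
  have hpw : Tendsto (fun n : ℕ => (n : ℝ) ^ (ε / 2)) atTop atTop :=
    (tendsto_rpow_atTop (by positivity)).comp tendsto_natCast_atTop_atTop
  filter_upwards [hsm, hll.eventually_ge_atTop (6 / ε), hll.eventually_ge_atTop 1, hlog.eventually_ge_atTop (18 / ε),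
    hlog.eventually_ge_atTop 1, hpw.eventually_ge_atTop (y0 : ℝ), hpw.eventually_ge_atTop 3, eventually_ge_atTop 4]
    with n g1 g2 g3 g4 g5 g6 g7 g8 a ha
  have hn : (4 : ℝ) ≤ n := by exact_mod_cast g8
  have hn0 : (0 : ℝ) < n := by linarith
  set L : ℝ := Real.log n with hL
  set l : ℝ := Real.log L with hl
  have hL0 : 0 < L := by linarith
  have hl0 : 0 < l := by linarith
  set x : ℕ := (n - 1) / 2 with hx
  have hx4 : (n : ℝ) / 4 ≤ x := by
    have h1 : n ≤ 4 * x := by omega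
    have h2 : (n : ℝ) ≤ 4 * x := by exact_mod_cast h1
    linarith
  have hxn : (x : ℝ) ≤ n := by
    have : x ≤ n := by omega
    exact_mod_cast this
  -- the exponent
  have hexp : ((a : ℝ) + 1) * Real.log (2 * L) + Real.log 4 + ε / 2 * L ≤ L := by
    have e1 : Real.log (2 * L) = l + Real.log 2 := by rw [Real.log_mul (by norm_num) hL0.ne', add_comm]
    have e2 : Real.log 2 ≤ 1 := by linarith [Real.log_two_lt_d9]
    have e2' : 0 ≤ Real.log 2 := by linarith [Real.log_two_gt_d9]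
    have e3 : Real.log 4 ≤ 2 := by
      have : Real.log 4 = 2 * Real.log 2 := by
        rw [show (4 : ℝ) = 2 ^ 2 by norm_num, Real.log_pow]
        norm_num
      linarith
    have e4 : 0 ≤ L / l := by positivity
    have e5 : L / l ≤ ε / 6 * L := by
      rw [div_le_iff₀ hl0]
      have : 1 ≤ ε / 6 * l := by
        have := mul_le_mul_of_nonneg_left g2 (show 0 ≤ ε / 6 by positivity)
        calc (1 : ℝ) = ε / 6 * (6 / ε) := by field_simp
          _ ≤ _ := this
      calc L = L * 1 := (mul_one L).symm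
        _ ≤ L * (ε / 6 * l) := mul_le_mul_of_nonneg_left this hL0.le
        _ = _ := by ring
    have e6 : 3 ≤ ε / 6 * L := by
      have := mul_le_mul_of_nonneg_left g4 (show 0 ≤ ε / 6 by positivity)
      calc (3 : ℝ) = ε / 6 * (18 / ε) := by field_simp; norm_num
        _ ≤ _ := this
    rw [e1]
    have e7 : ((a : ℝ) + 1) * (l + Real.log 2) ≤ ((1 - ε) * (L / l) + 1) * (l + Real.log 2) :=
      mul_le_mul_of_nonneg_right (by linarith) (by linarith)
    have e8 : ((1 - ε) * (L / l) + 1) * (l + Real.log 2) =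
        (1 - ε) * L + (1 - ε) * Real.log 2 * (L / l) + l + Real.log 2 := by
      field_simp
      ring
    have e9 : (1 - ε) * Real.log 2 * (L / l) ≤ 1 * (L / l) := by
      apply mul_le_mul_of_nonneg_right _ e4
      nlinarith
    linarith
  -- the size of the iterates
  have hbig : ∀ i : ℕ, i ≤ a + 1 → (n : ℝ) ^ (ε / 2) * (2 * L) ^ i ≤ x := by
    intro i hi
    have h2L : 1 ≤ 2 * L := by linarith
    have e1 : (2 * L) ^ i ≤ (2 * L) ^ (a + 1) := pow_le_pow_right₀ h2L hi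
    have e2 : (2 * L) ^ (a + 1) = Real.exp (((a : ℝ) + 1) * Real.log (2 * L)) := by
      rw [show ((a : ℝ) + 1) = ((a + 1 : ℕ) : ℝ) by push_cast; ring, Real.exp_nat_mul, Real.exp_log (by linarith)]
    have e3 : (n : ℝ) ^ (ε / 2) = Real.exp (ε / 2 * L) := by
      rw [Real.rpow_def_of_pos hn0, mul_comm]
    have e4 : Real.exp (L - Real.log 4) = n / 4 := by
      rw [Real.exp_sub, hL, Real.exp_log hn0, Real.exp_log (show (0:ℝ) < 4 by norm_num)]
    calc (n : ℝ) ^ (ε / 2) * (2 * L) ^ i ≤ (n : ℝ) ^ (ε / 2) * (2 * L) ^ (a + 1) :=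
          mul_le_mul_of_nonneg_left e1 (Real.rpow_nonneg hn0.le _)
      _ = Real.exp (ε / 2 * L + ((a : ℝ) + 1) * Real.log (2 * L)) := by rw [e2, e3, ← Real.exp_add]
      _ ≤ Real.exp (L - Real.log 4) := Real.exp_le_exp.2 (by linarith)
      _ = n / 4 := e4
      _ ≤ x := hx4
  have key : ∀ i : ℕ, i ≤ a + 1 → (x : ℝ) / (2 * L) ^ i ≤ ((pi S)^[i] x : ℕ) := by
    intro i
    induction i with
    | zero => intro _; simp
    | succ i ih =>
      intro hi
      have h1 := ih (by omega)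
      have h2 := hbig i (by omega)
      rw [Function.iterate_succ_apply']
      set y : ℕ := (pi S)^[i] x with hy
      have hp : 0 < (2 * L) ^ i := by positivity
      have h3 : (n : ℝ) ^ (ε / 2) ≤ y := by
        refine le_trans ?_ h1
        rw [le_div_iff₀ hp]
        exact h2
      have h4 : y0 ≤ y := by exact_mod_cast g6.trans h3
      have h5 : (3 : ℝ) ≤ y := g7.trans h3
      have h6 : (y : ℝ) ≤ n := by
        have : y ≤ x := pi_it_le S i x
        have : (y : ℝ) ≤ x := by exact_mod_cast this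
        linarith
      have h7 : 0 < Real.log y := Real.log_pos (by linarith)
      have h8 : Real.log y ≤ L := Real.log_le_log (by linarith) h6
      have h9 := (abs_le.1 (hy0 y h4)).1
      have h10 : (y : ℝ) / (2 * Real.log y) ≤ (pi S y : ℕ) := by
        have e1 : (y : ℝ) / (2 * Real.log y) = 1 / 2 * (y / Real.log y) := by
          field_simp
        rw [e1]
        unfold pi
        linarith
      calc (x : ℝ) / (2 * L) ^ (i + 1) = x / (2 * L) ^ i / (2 * L) := by rw [pow_succ, div_div]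
        _ ≤ y / (2 * L) := by gcongr
        _ ≤ y / (2 * Real.log y) := by gcongr
        _ ≤ _ := h10
  refine le_trans ?_ (key (a + 1) le_rfl)
  rw [le_div_iff₀ (by positivity)]
  exact hbig (a + 1) le_rfl

end det

/-- the range -/
def rng (ε : ℝ) : Set ℕ := {N | (Nat.unpair N).2 ≤ (Nat.unpair N).1 ∧
  ((Nat.unpair N).2 : ℝ) ≤ (1 - ε) * (Real.log (Nat.unpair N).1 / Real.log (Real.log (Nat.unpair N).1))}

/-- from pairs to numbers -/
lemma ev_unpair {P : ℕ → Prop} (h : ∀ᶠ n : ℕ in atTop, P n) (ε : ℝ) :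
    ∀ᶠ N : ℕ in atTop ⊓ 𝓟 (rng ε), P (Nat.unpair N).1 := by
  obtain ⟨n0, hn0⟩ := eventually_atTop.1 h
  rw [eventually_inf_principal]
  filter_upwards [eventually_ge_atTop ((n0 + 1) ^ 2)] with N hN hr
  apply hn0
  by_contra hcon
  have h1 := Nat.pair_lt_max_add_one_sq (Nat.unpair N).1 (Nat.unpair N).2
  rw [Nat.pair_unpair, max_eq_left hr.1] at h1
  have h2 : ((Nat.unpair N).1 + 1) ^ 2 ≤ (n0 + 1) ^ 2 := Nat.pow_le_pow_left (by omega) 2
  omega

lemma unpair_tendsto (ε : ℝ) : Tendsto (fun N : ℕ => (Nat.unpair N).1) (atTop ⊓ 𝓟 (rng ε)) atTop :=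
  tendsto_atTop.2 fun b => ev_unpair (eventually_ge_atTop b) ε

/-- from numbers to pairs -/
lemma ev_pair {P : ℕ → ℕ → Prop} {ε : ℝ}
    (h : ∀ᶠ N : ℕ in atTop ⊓ 𝓟 (rng ε), P (Nat.unpair N).1 (Nat.unpair N).2) (hε : 0 < ε) :
    ∀ᶠ n : ℕ in atTop, ∀ a : ℕ, (a : ℝ) ≤ (1 - ε) * (Real.log n / Real.log (Real.log n)) → P n a := by
  rw [eventually_inf_principal] at h
  obtain ⟨N0, hN0⟩ := eventually_atTop.1 h
  have hlog : Tendsto (fun n : ℕ => Real.log n) atTop atTop := Real.tendsto_log_atTop.comp tendsto_natCast_atTop_atTop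
  have hll : Tendsto (fun n : ℕ => Real.log (Real.log n)) atTop atTop := Real.tendsto_log_atTop.comp hlog
  filter_upwards [eventually_ge_atTop N0, hll.eventually_ge_atTop 1, hlog.eventually_ge_atTop 1,
    eventually_ge_atTop 1] with n g1 g2 g3 g4 a ha
  have h1 := hN0 (Nat.pair n a) (g1.trans (Nat.left_le_pair n a))
  have hn : (1 : ℝ) ≤ n := by exact_mod_cast g4
  have h2 : a ≤ n := by
    have e1 : Real.log n / Real.log (Real.log n) ≤ Real.log n := div_le_self (by linarith) g2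
    have e2 : Real.log n ≤ n := (Real.log_le_sub_one_of_pos (by linarith)).trans (by linarith)
    have e3 : 0 ≤ Real.log n / Real.log (Real.log n) := by positivity
    have e4 : (a : ℝ) ≤ n := by nlinarith
    exact_mod_cast e4
  simp only [rng, Set.mem_ofPred_eq, Nat.unpair_pair] at h1
  exact h1 ⟨h2, ha⟩


section prob

open Pool.Agent.R528.RM

variable {Ω : Type} {m0 : MeasurableSpace Ω} {μ : Measure Ω} [IsProbabilityMeasure μ]
  {ℱ : Filtration ℕ m0} {A : ℕ → Set Ω}

/-- the set of the chosen positive integers -/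
abbrev ST (A : ℕ → Set Ω) (ω : Ω) : Set ℕ := {k : ℕ | 0 < k ∧ ω ∈ A k}

lemma ST_pnt {ω : Ω} (h : PNT {k | ω ∈ A k}) : PNT (ST A ω) := by
  intro ε hε
  filter_upwards [h ε hε] with n g
  have e1 : ST A ω ∩ Set.Ioc 0 n = {k | ω ∈ A k} ∩ Set.Ioc 0 n := by
    ext t
    simp only [ST, Set.mem_inter_iff, Set.mem_ofPred_eq, Set.mem_Ioc]
    tauto
  rw [e1]
  exact g

lemma ST_zero (A : ℕ → Set Ω) (ω : Ω) : 0 ∉ ST A ω := fun h => lt_irrefl 0 h.1

lemma ST_ch (A : ℕ → Set Ω) (ω : Ω) (Y : ℕ) : ∀ t, 0 < t → t ≤ Y → (t ∈ ((ch A Y ω : Finset ℕ) : Set ℕ) ↔ t ∈ ST A ω) := by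
  intro t ht htY
  rw [Finset.mem_coe, mem_ch]
  constructor
  · rintro ⟨_, h⟩
    exact ⟨ht, h⟩
  · rintro ⟨_, h⟩
    exact ⟨htY, h⟩

/-- the chosen members of the family are the representations -/
lemma cho_card {ω : Ω} (hS : (ST A ω).Infinite) (N : ℕ) :
    (cho A (Phi N (ch A (X N) ω)) Prod.snd ω).card = reps (ST A ω) (Nat.unpair N).2 (Nat.unpair N).1 := by
  classical
  set n := (Nat.unpair N).1 with hn
  set a := (Nat.unpair N).2 with ha
  have h0 := ST_zero A ω
  have h1 : cho A (Phi N (ch A (X N) ω)) Prod.snd ω =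
      ((J (a + 1) (ST A ω) (X N)).filter (fun m => ω ∈ A (n - m))).image (fun m => ((m, {n - m}) : ℕ × Finset ℕ)) := by
    unfold cho Phi
    rw [J_trunc (ST_ch A ω (X N)), Finset.filter_image]
    congr 1
    apply Finset.filter_congr
    intro m _
    simp only [Finset.mem_singleton, forall_eq, ← hn]
  rw [h1, Finset.card_image_of_injective _ (Phi_inj n), ← ncard_jump hS h0 a (X N) (fun m => ω ∈ A (n - m))]
  unfold reps
  congr 1
  ext x
  simp only [Set.mem_ofPred_eq, ST]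
  have hX : X N = (n - 1) / 2 := rfl
  constructor
  · rintro ⟨h2, h3, h4⟩
    have h5 : 1 ≤ iPrime (ST A ω) a x := p_it_pos hS h0 (a + 1) h2
    rw [hX] at h3
    refine ⟨h2, ?_, ?_, h4⟩ <;> simp only [ST] at h3 h5 ⊢ <;> omega
  · rintro ⟨h2, h3, h4, h5⟩
    rw [hX]
    refine ⟨h2, ?_, h5⟩
    omega

/-- no far members -/
lemma far_empty (ω : Ω) (ε δ : ℝ) (hδ : 0 < δ) : ∀ᶠ N : ℕ in atTop ⊓ 𝓟 (rng ε),
    (far (Phi N (ch A (X N) ω)) Prod.snd (Real.log (Nat.unpair N).1) δ).card = 0 := by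
  have hlog : Tendsto (fun n : ℕ => Real.log n) atTop atTop := Real.tendsto_log_atTop.comp tendsto_natCast_atTop_atTop
  filter_upwards [ev_unpair (hlog.eventually_ge_atTop (Real.log 2 / δ)) ε, ev_unpair (eventually_ge_atTop 1) ε] with N g1 g2
  rw [Finset.card_eq_zero]
  unfold far
  rw [Finset.filter_eq_empty_iff]
  rintro j hj ⟨t, ht, h⟩
  obtain ⟨_, h2, h3, _⟩ := Phi_t hj ht
  rw [div_le_iff₀ hδ] at g1
  have hn : (1 : ℝ) ≤ ((Nat.unpair N).1 : ℝ) := by exact_mod_cast g2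
  have ht0 : (0 : ℝ) < t := by
    have : 0 < t := by omega
    exact_mod_cast this
  have h4 : Real.log t ≤ Real.log (Nat.unpair N).1 := Real.log_le_log ht0 (by exact_mod_cast h2)
  have h5 : Real.log (Nat.unpair N).1 ≤ Real.log 2 + Real.log t := by
    rw [← Real.log_mul (by norm_num) ht0.ne']
    apply Real.log_le_log (by linarith)
    exact_mod_cast h3.le
  rw [abs_of_nonpos (by linarith)] at h
  linarith

/-- the main law -/
lemma mainlaw (hA : ∀ n, MeasurableSet[ℱ n] (A n))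
    (hd : ∀ᵐ ω ∂μ, Tendsto (fun n : ℕ => dens μ ℱ A n ω * Real.log n) atTop (𝓝 1)) (ε : ℝ) (hε : 0 < ε) :
    ∀ᵐ ω ∂μ, ∀ δ : ℝ, 0 < δ → ∀ᶠ n : ℕ in atTop, ∀ a : ℕ,
      (a : ℝ) ≤ (1 - ε) * (Real.log n / Real.log (Real.log n)) →
      |(reps (ST A ω) a n : ℝ) - cnt (ST A ω) a ((n - 1) / 2) / Real.log n| ≤
        δ * (cnt (ST A ω) a ((n - 1) / 2) / Real.log n) := by
  classical
  have hpnt := pnt_ae (μ := μ) hA hd
  have hlog : Tendsto (fun n : ℕ => Real.log n) atTop atTop := Real.tendsto_log_atTop.comp tendsto_natCast_atTop_atTop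
  have h1 := sieved_rand (μ := μ) hA 1 one_pos (fun n hn => absurd (Nat.coprime_one_right n) hn) (seq_sieved hd) 1
    X (fun N => (Nat.unpair N).1) Phi (fun _ => 1)
    (fun n s j hj => by rw [(mem_Phi.1 hj).2]; exact Finset.card_singleton _)
    (fun n s j hj t ht => (Phi_t hj ht).1) (fun n s j hj t ht => (Phi_t hj ht).2.1) Phi_mult
    (atTop ⊓ 𝓟 (rng ε)) inf_le_left
    (fun N => Real.log (Nat.unpair N).1) (hlog.comp (unpair_tendsto ε))
    (by
      filter_upwards with ω δ hδ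
      filter_upwards [far_empty (A := A) ω ε δ hδ] with N g
      rw [cop_one, g, Nat.cast_zero, zero_mul]
      positivity)
    (by
      filter_upwards [hpnt] with ω hω
      have hP := ST_pnt hω
      have hS := infinite_of_pnt hP
      have h2 := (pow_log (1 / 4) (ε / 2) (by norm_num) (by positivity) 2).comp (unpair_tendsto ε)
      refine tendsto_atTop_mono' _ ?_ h2
      have h3 := ev_unpair (low hP ε hε) ε
      have hmem : ∀ᶠ N : ℕ in atTop ⊓ 𝓟 (rng ε), N ∈ rng ε :=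
        (eventually_principal.2 fun N hN => hN).filter_mono inf_le_right
      filter_upwards [h3, hmem, ev_unpair (eventually_ge_atTop 3) ε, (eventually_ge_atTop 2).filter_mono inf_le_left]
        with N g1 g2 g3 g4
      rw [cop_one, Phi_card hS (ST_zero A ω) N _ (ST_ch A ω (X N)), cnt_eq hS (ST_zero A ω)]
      have g5 := g1 _ g2.2
      simp only [Function.comp_apply]
      set n := (Nat.unpair N).1 with hn
      set a := (Nat.unpair N).2 with ha
      have hX : X N = (n - 1) / 2 := rfl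
      rw [hX]
      have hn3 : (3 : ℝ) ≤ n := by exact_mod_cast g3
      have hL : 0 < Real.log n := Real.log_pos (by linarith)
      have hN2 : (2 : ℝ) ≤ N := by exact_mod_cast g4
      have hLN : 0 < Real.log N := Real.log_pos (by linarith)
      have hNn : Real.log N ≤ 4 * Real.log n := by
        have e1 := Nat.pair_lt_max_add_one_sq n a
        rw [hn, ha, Nat.pair_unpair, max_eq_left g2.1, ← hn] at e1
        have e2 : N ≤ n ^ 4 := by
          have e3 : n + 1 ≤ n ^ 2 := by nlinarith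
          calc N ≤ (n + 1) ^ 2 := e1.le
            _ ≤ (n ^ 2) ^ 2 := Nat.pow_le_pow_left e3 2
            _ = n ^ 4 := by ring
        have e4 : (N : ℝ) ≤ (n : ℝ) ^ 4 := by exact_mod_cast e2
        calc Real.log N ≤ Real.log ((n : ℝ) ^ 4) := Real.log_le_log (by linarith) e4
          _ = 4 * Real.log n := by rw [Real.log_pow]; norm_num
      rw [Nat.cast_one, one_mul, pow_one, div_le_div_iff₀ (by positivity) (by positivity)]
      have hp : 0 ≤ (n : ℝ) ^ (ε / 2) := Real.rpow_nonneg (by linarith) _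
      calc 1 / 4 * (n : ℝ) ^ (ε / 2) * (Real.log N * Real.log n) ≤
            1 / 4 * (n : ℝ) ^ (ε / 2) * (4 * Real.log n * Real.log n) := by gcongr
        _ = (n : ℝ) ^ (ε / 2) * Real.log n ^ 2 := by ring
        _ ≤ _ := by gcongr)
  filter_upwards [h1, hpnt] with ω hω hpω δ hδ
  have hS := infinite_of_pnt (ST_pnt hpω)
  refine ev_pair (P := fun n a => |(reps (ST A ω) a n : ℝ) - cnt (ST A ω) a ((n - 1) / 2) / Real.log n| ≤
        δ * (cnt (ST A ω) a ((n - 1) / 2) / Real.log n)) ?_ hε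
  filter_upwards [hω δ hδ] with N g
  rw [cop_one, Phi_card hS (ST_zero A ω) N _ (ST_ch A ω (X N)), cho_card hS, Nat.totient_one, Nat.cast_one, div_one,
    pow_one, mul_one_div] at g
  exact g

/-- a representation -/
lemma hasRep_of {S : Set ℕ} {a n : ℕ} (h : 0 < reps S a n) : HasRep S a 0 n := by
  classical
  unfold reps at h
  obtain ⟨x, h1, h2, h3⟩ := Set.nonempty_of_ncard_ne_zero h.ne'
  refine ⟨x, Nat.count (· ∈ S) (n - iPrime S a x) + 1, h1, by omega, ?_, ?_⟩
  all_goals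
    have h4 : iPrime S 0 (Nat.count (· ∈ S) (n - iPrime S a x) + 1) = n - iPrime S a x := by
      unfold iPrime p
      simp only [zero_add, Function.iterate_one, Nat.add_sub_cancel]
      exact Nat.nth_count (p := (· ∈ S)) h3
    rw [h4]
    omega

end prob

/-- a lower bound for `f₂` -/
lemma f2_ge (a : ℕ) : (2 : ℝ) ^ (a ^ 2) ≤ f₂ a 0 := by
  unfold f₂
  rcases Nat.eq_zero_or_pos a with rfl | ha
  · rw [if_pos rfl, if_pos rfl]
    norm_num
  · rw [if_neg (by omega), ← Real.rpow_natCast]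
    apply Real.rpow_le_rpow_of_exponent_le (by norm_num)
    push_cast
    nlinarith [Nat.cast_nonneg (α := ℝ) a]

/-- the thresholds of the question are in the range -/
lemma range_f2 : ∀ᶠ n : ℕ in atTop, ∀ a : ℕ, 2 * f₂ a 0 ≤ n →
    (a : ℝ) ≤ (1 - 1 / 2) * (Real.log n / Real.log (Real.log n)) := by
  have hlog : Tendsto (fun n : ℕ => Real.log n) atTop atTop := Real.tendsto_log_atTop.comp tendsto_natCast_atTop_atTop
  have hll : Tendsto (fun n : ℕ => Real.log (Real.log n)) atTop atTop := Real.tendsto_log_atTop.comp hlog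
  have hsm : ∀ᶠ n : ℕ in atTop, Real.log (Real.log n) ^ 2 ≤ 1 / 8 * Real.log n := by
    have h1 := ((Real.isLittleO_pow_log_id_atTop (n := 2)).comp_tendsto hlog).def (show (0:ℝ) < 1 / 8 by norm_num)
    filter_upwards [h1, hlog.eventually_ge_atTop 0] with n g1 g2
    simp only [Function.comp_apply, id, Real.norm_eq_abs] at g1
    rw [abs_of_nonneg g2] at g1
    exact (le_abs_self _).trans g1
  filter_upwards [hsm, hll.eventually_ge_atTop 1, hlog.eventually_ge_atTop 1, eventually_ge_atTop 1] with n g1 g2 g3 g4 a ha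
  have hn : (1 : ℝ) ≤ n := by exact_mod_cast g4
  have h1 := f2_ge a
  have h2 : (2 : ℝ) ^ (a ^ 2) ≤ n := by
    have : 0 < (2 : ℝ) ^ (a ^ 2) := by positivity
    linarith
  set L := Real.log n
  set l := Real.log L
  have h3 : (a : ℝ) ^ 2 * Real.log 2 ≤ L := by
    have := Real.log_le_log (by positivity) h2
    rw [Real.log_pow] at this
    push_cast at this
    exact this
  have h4 : (a : ℝ) ^ 2 ≤ 2 * L := by nlinarith [Real.log_two_gt_d9]
  have h5 : (2 * a * l) ^ 2 ≤ L ^ 2 := by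
    calc (2 * a * l) ^ 2 = 4 * (a : ℝ) ^ 2 * l ^ 2 := by ring
      _ ≤ 4 * (2 * L) * (1 / 8 * L) := by gcongr
      _ = L ^ 2 := by ring
  have h6 : 2 * a * l ≤ L := (abs_le_of_sq_le_sq' h5 (by linarith)).2
  rw [show (1 - 1 / 2 : ℝ) * (L / l) = L / (2 * l) by field_simp; norm_num, le_div_iff₀ (by linarith)]
  linarith

end Pool.Agent.Results.MP_e3f158_nt.SequentialModelsUniform

open Pool.Agent.Results.MP_e3f158_nt.SequentialModelsUniform Pool.Agent.N909.TF

/-- Let `A n` be the event that `n` belongs to a random set adapted to a filtration `ℱ`, and let the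
conditional probability of `A (n + 1)` given `ℱ n`, times `log n`, tend to `1` almost surely.  The chosen
positive integers play the role of the primes.  Almost surely: (1) for every `ε > 0` and all large `n`,
simultaneously for ALL `a ≤ (1 - ε) log n / log log n`, there are at least `n ^ (ε / 2)` `a`-primes below
`n / 2`, and the number of those for which `n` minus the `a`-prime is chosen is the number of all of them
divided by `log n`, up to a factor between `1 - ε` and `1 + ε`, and `n` has a representation of type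
`(a, 0)`; (2) with finitely many exceptional pairs `(a, n)` every integer `n ≥ 2 f₂(a, 0)` has a
representation of type `(a, 0)`. -/
theorem Pool.Agent.Results.MP_e3f158_nt.SequentialModelsUniform.result
    {Ω : Type} [mΩ : MeasurableSpace Ω] (μ : Measure Ω) [IsProbabilityMeasure μ]
    (ℱ : Filtration ℕ mΩ) (A : ℕ → Set Ω) (hA : ∀ n, MeasurableSet[ℱ n] (A n))
    (hd : ∀ᵐ ω ∂μ, Tendsto (fun n : ℕ =>
      (μ[(A (n + 1)).indicator (fun _ => (1 : ℝ)) | ℱ n]) ω * Real.log n) atTop (𝓝 1)) :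
    (∀ᵐ ω ∂μ, ∀ ε : ℝ, 0 < ε → ∀ᶠ n : ℕ in atTop, ∀ a : ℕ,
      (a : ℝ) ≤ (1 - ε) * (Real.log n / Real.log (Real.log n)) →
      (n : ℝ) ^ (ε / 2) ≤ cnt {k : ℕ | 0 < k ∧ ω ∈ A k} a ((n - 1) / 2) ∧
      |(reps {k : ℕ | 0 < k ∧ ω ∈ A k} a n : ℝ) -
        cnt {k : ℕ | 0 < k ∧ ω ∈ A k} a ((n - 1) / 2) / Real.log n| ≤
        ε * (cnt {k : ℕ | 0 < k ∧ ω ∈ A k} a ((n - 1) / 2) / Real.log n) ∧
      HasRep {k : ℕ | 0 < k ∧ ω ∈ A k} a 0 n) ∧
    (∀ᵐ ω ∂μ, {q : ℕ × ℕ | 2 * f₂ q.1 0 ≤ q.2 ∧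
      ¬ HasRep {k : ℕ | 0 < k ∧ ω ∈ A k} q.1 0 q.2}.Finite) := by
  classical
  have hpnt := pnt_ae (μ := μ) hA hd
  have h1 : ∀ᵐ ω ∂μ, ∀ ε : ℝ, 0 < ε → ∀ᶠ n : ℕ in atTop, ∀ a : ℕ,
      (a : ℝ) ≤ (1 - ε) * (Real.log n / Real.log (Real.log n)) →
      (n : ℝ) ^ (ε / 2) ≤ cnt (ST A ω) a ((n - 1) / 2) ∧
      |(reps (ST A ω) a n : ℝ) - cnt (ST A ω) a ((n - 1) / 2) / Real.log n| ≤
        ε * (cnt (ST A ω) a ((n - 1) / 2) / Real.log n) := by
    have h2 : ∀ᵐ ω ∂μ, ∀ j : ℕ, ∀ δ : ℝ, 0 < δ → ∀ᶠ n : ℕ in atTop, ∀ a : ℕ,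
        (a : ℝ) ≤ (1 - 1 / ((j : ℝ) + 1)) * (Real.log n / Real.log (Real.log n)) →
        |(reps (ST A ω) a n : ℝ) - cnt (ST A ω) a ((n - 1) / 2) / Real.log n| ≤
          δ * (cnt (ST A ω) a ((n - 1) / 2) / Real.log n) :=
      ae_all_iff.2 fun j => mainlaw (μ := μ) hA hd (1 / ((j : ℝ) + 1)) (by positivity)
    filter_upwards [h2, hpnt] with ω hω hpω ε hε
    have hP := ST_pnt hpω
    have hS := infinite_of_pnt hP
    obtain ⟨j, hj⟩ := exists_nat_one_div_lt hε
    have hlog : Tendsto (fun n : ℕ => Real.log n) atTop atTop := Real.tendsto_log_atTop.comp tendsto_natCast_atTop_atTop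
    have hll : Tendsto (fun n : ℕ => Real.log (Real.log n)) atTop atTop := Real.tendsto_log_atTop.comp hlog
    filter_upwards [hω j ε hε, low hP ε hε, hll.eventually_ge_atTop 1, hlog.eventually_ge_atTop 1] with n g1 g2 g3 g4 a ha
    have hR : 0 ≤ Real.log n / Real.log (Real.log n) := by positivity
    refine ⟨?_, g1 a (ha.trans (mul_le_mul_of_nonneg_right (by linarith) hR))⟩
    rw [cnt_eq hS (ST_zero A ω)]
    exact g2 a ha
  have h3 : ∀ᵐ ω ∂μ, ∀ ε : ℝ, 0 < ε → ∀ᶠ n : ℕ in atTop, ∀ a : ℕ,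
      (a : ℝ) ≤ (1 - ε) * (Real.log n / Real.log (Real.log n)) → HasRep (ST A ω) a 0 n := by
    filter_upwards [h1] with ω hω ε hε
    have hlog : Tendsto (fun n : ℕ => Real.log n) atTop atTop := Real.tendsto_log_atTop.comp tendsto_natCast_atTop_atTop
    have hll : Tendsto (fun n : ℕ => Real.log (Real.log n)) atTop atTop := Real.tendsto_log_atTop.comp hlog
    filter_upwards [hω (min ε (1 / 2)) (by positivity), hll.eventually_ge_atTop 1, hlog.eventually_ge_atTop 1,
      eventually_ge_atTop 1] with n g1 g3 g4 g5 a ha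
    have hR : 0 ≤ Real.log n / Real.log (Real.log n) := by positivity
    have hmin : min ε (1 / 2) ≤ ε := min_le_left _ _
    obtain ⟨g6, g7⟩ := g1 a (ha.trans (mul_le_mul_of_nonneg_right (by linarith) hR))
    apply hasRep_of
    have hn : (1 : ℝ) ≤ n := by exact_mod_cast g5
    have hc : 0 < (cnt (ST A ω) a ((n - 1) / 2) : ℝ) :=
      lt_of_lt_of_le (Real.rpow_pos_of_pos (by linarith) _) g6
    have hq : 0 < (cnt (ST A ω) a ((n - 1) / 2) : ℝ) / Real.log n := div_pos hc (by linarith)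
    have h4 := (abs_le.1 g7).1
    have h5 : min ε (1 / 2) * ((cnt (ST A ω) a ((n - 1) / 2) : ℝ) / Real.log n) ≤
        1 / 2 * ((cnt (ST A ω) a ((n - 1) / 2) : ℝ) / Real.log n) :=
      mul_le_mul_of_nonneg_right (min_le_right _ _) hq.le
    have h6 : (0 : ℝ) < reps (ST A ω) a n := by linarith
    exact_mod_cast h6
  refine ⟨?_, ?_⟩
  · filter_upwards [h1, h3] with ω hω hω' ε hε
    filter_upwards [hω ε hε, hω' ε hε] with n g1 g2 a ha
    exact ⟨(g1 a ha).1, (g1 a ha).2, g2 a ha⟩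
  filter_upwards [h3] with ω hω
  obtain ⟨N1, hN1⟩ := eventually_atTop.1 ((hω (1 / 2) (by norm_num)).and range_f2)
  refine Set.Finite.subset (Finset.finite_toSet (Finset.range N1 ×ˢ Finset.range N1)) ?_
  rintro ⟨a, n⟩ ⟨h4, h5⟩
  simp only at h4 h5
  have h6 : n < N1 := by
    by_contra hcon
    obtain ⟨h7, h8⟩ := hN1 n (not_lt.1 hcon)
    exact h5 (h7 a (h8 a h4))
  have h7 : a < n := by
    have e1 := f2_ge a
    have e2 : (2 : ℝ) ^ (a ^ 2) ≤ n := by
      have : 0 < (2 : ℝ) ^ (a ^ 2) := by positivity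
      linarith
    have e3 : 2 ^ (a ^ 2) ≤ n := by exact_mod_cast e2
    have e4 : a ≤ a ^ 2 := by nlinarith [Nat.zero_le a]
    calc a < 2 ^ a := Nat.lt_two_pow_self
      _ ≤ 2 ^ (a ^ 2) := Nat.pow_le_pow_right (by norm_num) e4
      _ ≤ n := e3
  simp only [Finset.coe_product, Set.mem_prod, Finset.mem_coe, Finset.mem_range]
  exact ⟨by omega, h6⟩
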